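import Pool.Agent.helper44.AX.SpecG

/-! Project AX, row CRB: finite index for every `j`. -/

set_option autoImplicit false

namespace Pool.Agent.AX

open Matrix Polynomial Topology Filter Pool.Agent.GO Pool.Agent.AR Pool.Agent.RG Pool.Agent.HZ
  Pool.Agent.DS Pool.Agent.FLD MeasureTheory NumberField

theorem CRB_closed {Γ : Type} [Group Γ] [TopologicalSpace Γ] {q : ℕ} [Fact q.Prime] {r : ℕ} {n : Fin r → ℕ}
    (V : (i : Fin r) → Γ →* Matrix (Fin (n i)) (Fin (n i)) ℤ_[q]) (hV : ∀ i, Continuous (V i)) :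
    IsClosed (kerV V : Set Γ) := by
  unfold kerV
  rw [Subgroup.coe_iInf]
  refine isClosed_iInter fun i => ?_
  have e : (((V i).ker : Subgroup Γ) : Set Γ) = (V i) ⁻¹' {1} := by
    ext g
    simp [MonoidHom.mem_ker]
  rw [e]
  exact isClosed_singleton.preimage (hV i)

theorem CRB_normal {Γ F : Type*} [Group Γ] [CommRing F] {r : ℕ} {n : Fin r → ℕ}
    (V : (i : Fin r) → Γ →* Matrix (Fin (n i)) (Fin (n i)) F) : (kerV V).Normal := by
  unfold kerV
  constructor
  intro g hg h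
  rw [Subgroup.mem_iInf] at hg ⊢
  intro i
  exact (inferInstance : ((V i).ker).Normal).conj_mem g (hg i) h

theorem CRB (hFIX : FIX_stmt) (hYV : YV_stmt) (hYA : YA_stmt) : CRB_stmt := by
  intro Γ _ _ _ _ r n V hV J p _ hp F κ _ _ _ _ _ _ red hred ρ hρ hint j Ω _ _ _ _ hSI hfin
  classical
  let A : Type := ({q : ℕ // q.Prime ∧ q ≠ p j} × Fin r) ⊕ {k : J // k ≠ j}
  let q : A → ℕ := Sum.elim (fun x => x.1.1) (fun k => p k.1)
  let K : A → Subgroup Γ := Sum.elim (fun x => (haveI : Fact x.1.1.Prime := ⟨x.1.2.1⟩; (V x.1.1 x.2).ker))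
    (fun k => adKer (ρ k.1))
  let m : ℕ := 3 + ∑ i, n i
  have hm3 : 3 ≤ m := Nat.le_add_right _ _
  have hmn : ∀ i, n i ≤ m := fun i =>
    (Finset.single_le_sum (f := n) (fun _ _ => Nat.zero_le _) (Finset.mem_univ i)).trans (Nat.le_add_left _ _)
  have hlay : ∀ a, (q a).Prime ∧ q a ≠ p j ∧ HasLayer (q a) m (K a) := by
    rintro (⟨⟨l, hl1, hl2⟩, i⟩ | ⟨k, hk⟩)
    · haveI : Fact l.Prime := ⟨hl1⟩
      exact ⟨hl1, hl2, hYV l (n i) m (hmn i) Γ (V l i) (hV l i)⟩
    · refine ⟨(Fact.out : (p k).Prime), fun h => hk (hp h), ?_⟩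
      exact hYA (p k) m hm3 Γ (F k) (κ k) (red k) (hred k) (ρ k) (hρ k) (hint k)
  have h := hFIX (p j) m Γ (F j) Ω (ρ j) (hρ j) (hint j) hSI (kerV (V (p j))) (CRB_normal _)
    (CRB_closed _ (hV (p j))) hfin A q K hlay
  have e : (kerV (V (p j)) ⊓ ⨅ a, K a) = kerAll V ⊓ ⨅ k : {k : J // k ≠ j}, adKer (ρ k.1) := by
    ext g
    simp only [Subgroup.mem_inf, Subgroup.mem_iInf, kerAll]
    constructor
    · rintro ⟨h1, h2⟩
      refine ⟨fun l hl => ?_, fun k => h2 (Sum.inr k)⟩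
      by_cases hlp : l = p j
      · subst hlp
        exact h1
      · unfold kerV
        rw [Subgroup.mem_iInf]
        intro i
        exact h2 (Sum.inl (⟨l, hl.out, hlp⟩, i))
    · rintro ⟨h1, h2⟩
      refine ⟨h1 (p j) inferInstance, ?_⟩
      rintro (⟨⟨l, hl1, hl2⟩, i⟩ | k)
      · haveI : Fact l.Prime := ⟨hl1⟩
        have h3 := h1 l this
        unfold kerV at h3
        rw [Subgroup.mem_iInf] at h3
        exact h3 i
      · exact h2 k
  rw [e] at h
  exact h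

end Pool.Agent.AX
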